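import Mathlib
import Pool.Agent.Q137.FD.Fin

/-!
# MP_0d5181_co : fractional dilate sizes are approximated by finite sets of integers
-/

namespace Pool.Agent.Results.MP_0d5181_co.FractionalDilatesApproximable

/-- the size `‖γ‖ = inf_{0<p<1} ∑ γ(n)^p` of a fractional dilate -/
noncomputable def size (γ : ℤ → ℝ) : ℝ := ⨅ p : Set.Ioo (0:ℝ) 1, ∑ᶠ n : ℤ, γ n ^ (p : ℝ)

/-- a fractional set: finite support and values in `[0, 1]` -/
structure IsFractionalSet (α : ℤ → ℝ) : Prop where
  finite_support : (Function.support α).Finite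
  nonneg : ∀ n, 0 ≤ α n
  le_one : ∀ n, α n ≤ 1

/-- `(α + k · α)(n) = ∑_{i + k j = n} α(i) α(j)` -/
noncomputable def dilateSum (α : ℤ → ℝ) (k n : ℤ) : ℝ := ∑ᶠ j : ℤ, α (n - k * j) * α j

/-- `S + k · S` for a finite set of integers -/
def sumset (S : Finset ℤ) (k : ℤ) : Finset ℤ := (S ×ˢ S).image fun q => q.1 + k * q.2

/-- Q1 is true, with `S` as large as desired. -/
theorem result : ∀ α : ℤ → ℝ, IsFractionalSet α → 1 < size α → ∀ N : ℕ, ∀ ε : ℝ, 0 < ε → ∀ M : ℕ,
    ∃ S : Finset ℤ, M ≤ S.card ∧ 2 ≤ S.card ∧ ∀ k : ℤ, 1 ≤ |k| → |k| ≤ N →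
      |Real.log (size (dilateSum α k)) / Real.log (size α) -
        Real.log ((sumset S k).card : ℝ) / Real.log (S.card : ℝ)| < ε := by
  intro α hα h1 N ε hε M
  classical
  set F : Finset ℤ := hα.finite_support.toFinset with hF
  have hz : ∀ z, z ∉ F → α z = 0 := by
    intro z hz
    rw [hF, Set.Finite.mem_toFinset, Function.mem_support, not_not] at hz
    exact hz
  have hp : ∀ z ∈ F, 0 < α z := by
    intro z hz
    rw [hF, Set.Finite.mem_toFinset, Function.mem_support] at hz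
    exact lt_of_le_of_ne (hα.nonneg z) (Ne.symm hz)
  have hFne : F.Nonempty := by
    by_contra hne
    rw [Finset.not_nonempty_iff_eq_empty] at hne
    have h0 : ∀ z, α z = 0 := fun z => hz z (by rw [hne]; simp)
    have h2 : size α ≤ 0 := by
      unfold size
      have : Nonempty (Set.Ioo (0:ℝ) 1) := ⟨⟨1/2, by norm_num, by norm_num⟩⟩
      have e : ∀ p : Set.Ioo (0:ℝ) 1, ∑ᶠ n : ℤ, α n ^ (p : ℝ) = 0 := by
        intro p
        have : (fun n : ℤ => α n ^ (p : ℝ)) = fun _ => 0 := by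
          funext n
          rw [h0 n, Real.zero_rpow p.2.1.ne']
        rw [this, finsum_zero]
      simp only [e, ciInf_const, le_refl]
    linarith
  have hbig : 1 < ∑ z ∈ F, α z := by
    refine lt_of_lt_of_le h1 ?_
    refine (Q137.FD.iInf_le_G hFne hz hp (p := 1) ⟨zero_le_one, le_rfl⟩).trans (le_of_eq ?_)
    unfold Q137.FD.G
    refine Finset.sum_congr rfl fun z hz => ?_
    rw [one_mul, Real.exp_log (hp z hz)]
  have hgood : Q137.FD.Good F α := ⟨hz, hp, hα.le_one, hbig⟩
  have hdil : ∀ k, dilateSum α k = Q137.FD.gam F α k := by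
    intro k
    funext n
    unfold dilateSum Q137.FD.gam
    refine finsum_eq_sum_of_support_subset _ ?_
    intro j hj
    rw [Function.mem_support] at hj
    by_contra hc
    apply hj
    rw [hz j (by simpa using hc), mul_zero]
  have hK : (0:ℤ) ∉ (Finset.Icc (-(N:ℤ)) N).erase 0 := Finset.notMem_erase _ _
  obtain ⟨S, hSM, hS2, hS⟩ := Q137.FD.approx hgood _ hK hε M
  refine ⟨S, hSM, hS2, fun k hk1 hkN => ?_⟩
  have hkK : k ∈ (Finset.Icc (-(N:ℤ)) N).erase 0 := by
    rw [Finset.mem_erase, Finset.mem_Icc]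
    refine ⟨?_, abs_le.1 hkN⟩
    rintro rfl
    simp at hk1
  have := hS k hkK
  rw [← Q137.FD.size_set hgood, ← hdil k] at this
  exact this

end Pool.Agent.Results.MP_0d5181_co.FractionalDilatesApproximable
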